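import Pool.Agent.helper37.NA.Spec

/-!
# MP_baa4d7_al, theorem NA, row NDV: the divisibility of the chain sum
-/

set_option autoImplicit false

namespace Pool.Agent.NAB

open Pool.Agent.helper58.DC Pool.Agent.DI Pool.Agent.GR Pool.Agent.OB Pool.Agent.DR Pool.Agent.FI Pool.Agent.FI3 Pool.Agent.FI4 Pool.Agent.FI4I Pool.Agent.LE Pool.Agent.L5

/-- The characters `χ'` of the quotient with `χ' ∘ π` in the block of `χ`. -/
def NDV_X {G Gb : Type} [Group G] [Group Gb] (M : Ideal (integralClosure ℤ ℂ)) (π : G →* Gb)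
    (χ : G → ℂ) : Set (Gb → ℂ) :=
  {χ' : Gb → ℂ | χ' ∈ Irr Gb ∧ Induces M (fun g => χ' (π g)) χ}

/-- `lb` of the preimage. -/
theorem NDV_lb (hKLE : KLE_stmt) (hKIN : KIN_stmt) (hNKB : NKB_stmt) (hBCL : BCL_stmt) (p : ℕ)
    (M : Ideal (integralClosure ℤ ℂ)) (hM : Setup p M) (G Gb : Type) [Group G] [Finite G]
    [Group Gb] [Finite Gb] (R₁ : Subgroup G) (π : G →* Gb) (hQ : Qn p R₁ π) (R' : Subgroup Gb)
    (hR' : nz R' = ⊤) (χ : G → ℂ)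
    (Cb : Finset (Subgroup Gb)) (hCb : NCh p ⊤ R' Cb) :
    lb p M χ ((nrm Cb).comap π) = ls p (nrm Cb) (BX M (NDV_X M π χ) (nrm Cb)) := by
  have h1 : dn π (nrm Cb) (Blk M χ ((nrm Cb).comap π)) = BX M (NDV_X M π χ) (nrm Cb) := by
    ext f
    constructor
    · rintro ⟨h2, h3⟩
      exact ⟨h2, (hNKB p M hM G Gb R₁ π hQ R' hR' χ Cb hCb f h2).1 h3.2⟩
    · rintro ⟨h2, h3⟩
      exact ⟨h2, (hKIN p G Gb R₁ π hQ).2.1 (nrm Cb) f h2,
        (hNKB p M hM G Gb R₁ π hQ R' hR' χ Cb hCb f h2).2 h3⟩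
  rw [lb_eq_ls, ← (hKLE p M hM G Gb R₁ π hQ (nrm Cb) _ (hBCL G M χ ((nrm Cb).comap π))).2, h1]

/-- The induction step, for an arbitrary quotient map. -/
theorem NDV_gen (hNQK : NQK_stmt) (hNKC : NKC_stmt) (hNKB : NKB_stmt) (hKG1 : KG1_stmt)
    (hKLE : KLE_stmt) (hKIN : KIN_stmt) (hKBL : KBL_stmt) (hKUN : KUN_stmt) (hBCL : BCL_stmt)
    (hIM : IM_stmt) (p e m : ℕ) (M : Ideal (integralClosure ℤ ℂ)) (hM : Setup p M) (he : m < e)
    (G Gb : Type) [Group G] [Finite G] [Group Gb] [Finite Gb] (χ : G → ℂ) (hχ : χ ∈ Irr G)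
    (z x : G) (hU : Ucl p e m M (⊤ : Subgroup G) χ z x)
    (R : Subgroup G) (hR : IsOp p ⊤ R) (hz : z ^ p ^ (e - 1) ∉ R) (R₁ : Subgroup G) (hR₁ : R₁ ≤ R)
    (π : G →* Gb) (hQ : Qn p R₁ π)
    (ih : ∀ χ' ∈ Irr Gb, ∀ z' x' : Gb, Ucl p e m M (⊤ : Subgroup Gb) χ' z' x' → ∀ R' : Subgroup Gb,
      IsOp p (⊤ : Subgroup Gb) R' → z' ^ p ^ (e - 1) ∉ R' →
      (p : ℤ) ^ (e - m / 2) * Nat.card Gb ∣ ∑ᶠ C ∈ {C : Finset (Subgroup Gb) | NCh p ⊤ R' C},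
        (-1) ^ (C.card + 1) * ((Nat.card (nrm C) : ℤ) * (lb p M χ' (nrm C) : ℤ))) :
    (p : ℤ) ^ (e - m / 2) * Nat.card G ∣ ∑ᶠ C ∈ {C : Finset (Subgroup G) | NCh p ⊤ R C},
      (-1) ^ (C.card + 1) * ((Nat.card (nrm C) : ℤ) * (lb p M χ (nrm C) : ℤ)) := by
  classical
  have : Fact p.Prime := ⟨hM.pr⟩
  obtain ⟨-, hcG, hN, -, -, -, -, -⟩ := hKG1 p G Gb R₁ π hQ
  obtain ⟨hbij0, hch, hop⟩ := hNKC p G Gb R₁ π hQ
  obtain ⟨hRR, hop'⟩ := hop R hR₁ hR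
  have hbij := hbij0 (R.map π)
  rw [hRR] at hbij
  have hnz : nz (R.map π) = ⊤ := top_le_iff.1 hop'.1.2.2
  have hX : ∀ χ' ∈ NDV_X M π χ, ∀ χ'' ∈ Irr Gb, Induces M χ'' χ' → χ'' ∈ NDV_X M π χ :=
    fun χ' h1 χ'' h2 h3 => ⟨h2, (hIM G M _ _ _).2.2.1 ((hKBL p M hM G Gb R₁ π hQ).1 χ'' χ' h3) h1.2⟩
  have hz₁ : z ^ p ^ (e - 1) ∉ R₁ := fun h => hz (hR₁ h)
  have hz' : (π z) ^ p ^ (e - 1) ∉ R.map π := by
    intro h
    rw [← map_pow] at h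
    have h1 : z ^ p ^ (e - 1) ∈ (R.map π).comap π := h
    rw [hRR] at h1
    exact hz h1
  have hdv : ∀ χ' ∈ NDV_X M π χ, (p : ℤ) ^ (e - m / 2) * Nat.card Gb ∣
      ∑ᶠ C ∈ {C : Finset (Subgroup Gb) | NCh p ⊤ (R.map π) C},
        (-1) ^ (C.card + 1) * ((Nat.card (nrm C) : ℤ) * (lb p M χ' (nrm C) : ℤ)) := by
    intro χ' h1
    exact ih χ' h1.1 (π z) (π x)
      (hNQK p e m M hM (by omega) G Gb R₁ π hQ χ hχ z x hU hz₁ χ' h1.1 h1.2) (R.map π) hop' hz'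
  obtain ⟨-, k, hk⟩ := hKUN p M hM Gb {C : Finset (Subgroup Gb) | NCh p ⊤ (R.map π) C}
    ((p : ℤ) ^ (e - m / 2) * Nat.card Gb) (NDV_X M π χ) (fun _ h => h.1) hX hdv
  have h4 : ∑ᶠ Cb ∈ {Cb : Finset (Subgroup Gb) | NCh p ⊤ (R.map π) Cb}, (Nat.card R₁ : ℤ) *
      ((-1) ^ (Cb.card + 1) * ((Nat.card (nrm Cb) : ℤ) *
        (ls p (nrm Cb) (BX M (NDV_X M π χ) (nrm Cb)) : ℤ))) =
      ∑ᶠ C ∈ {C : Finset (Subgroup G) | NCh p ⊤ R C},
        (-1) ^ (C.card + 1) * ((Nat.card (nrm C) : ℤ) * (lb p M χ (nrm C) : ℤ)) := by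
    refine finsum_mem_eq_of_bijOn _ hbij ?_
    intro Cb hCb
    have h5 := hch Cb
    have h6 := NDV_lb hKLE hKIN hNKB hBCL p M hM G Gb R₁ π hQ (R.map π) hnz χ Cb hCb
    have h7 := (hN (nrm Cb)).2.1
    change _ = (-1) ^ ((Cb.image (Subgroup.comap π)).card + 1) *
      ((Nat.card (nrm (Cb.image (Subgroup.comap π))) : ℤ) *
        (lb p M χ (nrm (Cb.image (Subgroup.comap π))) : ℤ))
    rw [h5.1, ← h5.2, h6, h7]
    push_cast
    ring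
  have hfin : ({Cb : Finset (Subgroup Gb) | NCh p ⊤ (R.map π) Cb}).Finite := Set.toFinite _
  have h8 : ∑ᶠ Cb ∈ {Cb : Finset (Subgroup Gb) | NCh p ⊤ (R.map π) Cb}, (Nat.card R₁ : ℤ) *
      ((-1) ^ (Cb.card + 1) * ((Nat.card (nrm Cb) : ℤ) *
        (ls p (nrm Cb) (BX M (NDV_X M π χ) (nrm Cb)) : ℤ))) =
      (Nat.card R₁ : ℤ) * ∑ᶠ Cb ∈ {Cb : Finset (Subgroup Gb) | NCh p ⊤ (R.map π) Cb},
      ((-1) ^ (Cb.card + 1) * ((Nat.card (nrm Cb) : ℤ) *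
        (ls p (nrm Cb) (BX M (NDV_X M π χ) (nrm Cb)) : ℤ))) := by
    rw [finsum_mem_eq_finite_toFinset_sum _ hfin, finsum_mem_eq_finite_toFinset_sum _ hfin,
      Finset.mul_sum]
  rw [← h4, h8, hk]
  refine ⟨k, ?_⟩
  rw [hcG]
  push_cast
  ring

/-- a nontrivial normal `p`-subgroup contains a nontrivial commutative one -/
theorem NDV_center {G : Type} [Group G] [Finite G] (p : ℕ) [Fact p.Prime] (R : Subgroup G)
    (hp : IsPGroup p R) (hn : R.Normal) (h1 : R ≠ ⊥) :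
    ∃ R₁ : Subgroup G, R₁.Normal ∧ R₁ ≤ R ∧ R₁ ≠ ⊥ ∧ IsPGroup p R₁ ∧ ∀ a ∈ R₁, ∀ b ∈ R₁, a * b = b * a := by
  have hnt : Nontrivial R := (Subgroup.nontrivial_iff_ne_bot R).2 h1
  have hc : Nontrivial (Subgroup.center R) := hp.center_nontrivial
  refine ⟨R ⊓ Subgroup.centralizer (R : Set G), ?_, inf_le_left, ?_, ?_, ?_⟩
  · constructor
    intro r hr g
    refine Subgroup.mem_inf.2 ⟨hn.conj_mem r hr.1 g, ?_⟩
    rw [Subgroup.mem_centralizer_iff]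
    intro h hh
    have h2 : g⁻¹ * h * g ∈ R := by
      have := hn.conj_mem h hh g⁻¹
      rwa [inv_inv] at this
    have h3 := Subgroup.mem_centralizer_iff.1 hr.2 _ h2
    calc h * (g * r * g⁻¹) = g * ((g⁻¹ * h * g) * r) * g⁻¹ := by group
      _ = g * (r * (g⁻¹ * h * g)) * g⁻¹ := by rw [h3]
      _ = g * r * g⁻¹ * h := by group
  · obtain ⟨c, hc1⟩ := exists_ne (1 : Subgroup.center R)
    intro hbot
    have h2 : ((c : R) : G) ∈ R ⊓ Subgroup.centralizer (R : Set G) := by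
      refine Subgroup.mem_inf.2 ⟨(c : R).2, ?_⟩
      rw [Subgroup.mem_centralizer_iff]
      intro h hh
      have h3 := Subgroup.mem_center_iff.1 c.2 ⟨h, hh⟩
      exact congrArg Subtype.val h3
    rw [hbot, Subgroup.mem_bot] at h2
    exact hc1 (Subtype.ext (Subtype.ext h2))
  · exact hp.to_le inf_le_left
  · intro a ha b hb
    exact (Subgroup.mem_centralizer_iff.1 hb.2 a ha.1)

theorem NDV_ind (hNDB : NDB_stmt) (hNQK : NQK_stmt) (hNKC : NKC_stmt) (hNKB : NKB_stmt)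
    (hKG1 : KG1_stmt) (hKLE : KLE_stmt) (hKIN : KIN_stmt) (hKBL : KBL_stmt) (hKUN : KUN_stmt)
    (hBCL : BCL_stmt) (hIM : IM_stmt)
    (p e m : ℕ) (M : Ideal (integralClosure ℤ ℂ)) (hM : Setup p M) (he : m < e) (n : ℕ) :
    ∀ (G : Type) [Group G] [Finite G], Nat.card G = n →
    ∀ χ ∈ Irr G, ∀ z x : G, Ucl p e m M (⊤ : Subgroup G) χ z x → ∀ R : Subgroup G,
      IsOp p (⊤ : Subgroup G) R → z ^ p ^ (e - 1) ∉ R →
    (p : ℤ) ^ (e - m / 2) * Nat.card G ∣ ∑ᶠ C ∈ {C : Finset (Subgroup G) | NCh p ⊤ R C},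
      (-1) ^ (C.card + 1) * ((Nat.card (nrm C) : ℤ) * (lb p M χ (nrm C) : ℤ)) := by
  induction n using Nat.strong_induction_on with
  | _ n ih =>
    intro G _ _ hcard χ hχ z x hU R hR hz
    have : Fact p.Prime := ⟨hM.pr⟩
    by_cases hbot : R = ⊥
    · subst hbot
      exact hNDB p e m M hM he G hR χ hχ z x hU
    · have hn : R.Normal := by
        constructor
        intro r hr g
        have h1 : g ∈ Subgroup.normalizer (R : Set G) := hR.1.2.2 (Subgroup.mem_top g)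
        exact (Subgroup.mem_normalizer_iff.1 h1 r).1 hr
      obtain ⟨R₁, hn₁, hle, hne, hpg, hcom⟩ := NDV_center p R hR.1.2.1 hn hbot
      have hQ : Qn p R₁ (QuotientGroup.mk' R₁) :=
        { pg := hpg
          com := hcom
          sur := QuotientGroup.mk'_surjective R₁
          ker := fun g => by
            rw [QuotientGroup.mk'_apply, QuotientGroup.eq_one_iff] }
      have hlt : Nat.card (G ⧸ R₁) < n := by
        have h1 := (hKG1 p G (G ⧸ R₁) R₁ (QuotientGroup.mk' R₁) hQ).2.1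
        have h2 : 1 < Nat.card R₁ := (Subgroup.one_lt_card_iff_ne_bot R₁).2 hne
        have h3 : 0 < Nat.card (G ⧸ R₁) := Nat.card_pos
        rw [← hcard, h1]
        nlinarith
      exact NDV_gen hNQK hNKC hNKB hKG1 hKLE hKIN hKBL hKUN hBCL hIM p e m M hM he G (G ⧸ R₁) χ hχ z x
        hU R hR hz R₁ hle (QuotientGroup.mk' R₁) hQ (ih _ hlt (G ⧸ R₁) rfl)

theorem NDV (hNDB : NDB_stmt) (hNQK : NQK_stmt) (hNKC : NKC_stmt) (hNKB : NKB_stmt) (hKG1 : KG1_stmt)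
    (hKLE : KLE_stmt) (hKIN : KIN_stmt) (hKBL : KBL_stmt) (hKUN : KUN_stmt) (hBCL : BCL_stmt)
    (hIM : IM_stmt) : NDV_stmt := by
  intro p e m M hM he G _ _ χ hχ z x hU R hR hz
  exact NDV_ind hNDB hNQK hNKC hNKB hKG1 hKLE hKIN hKBL hKUN hBCL hIM p e m M hM he (Nat.card G) G rfl χ hχ
    z x hU R hR hz

end Pool.Agent.NAB
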